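import Pool.Agent.H29.SL.Targets

/-! The equation `p ^ 2 + p + 1 = q ^ 3` (module EX of the board so_modules, MP_5b3ee2_nt). -/

set_option autoImplicit false

namespace Pool.Agent.H51.SL

/-- the diophantine part -/
lemma ex_aux (r m : ℤ) (hr : 4 ≤ r) (hm : 1 ≤ m) (h : r ^ 2 + 3 * r + 3 = (r * m - 1) * m) :
    False := by
  have h1 : r ∣ m + 3 := ⟨m ^ 2 - r - 3, by linear_combination h⟩
  obtain ⟨t, ht⟩ := h1
  have ht1 : 1 ≤ t := by
    by_contra hc
    have : r * t ≤ 0 := by nlinarith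
    linarith
  have hm' : m = r * t - 3 := by linarith
  subst hm'
  have h2 : r * (r + 3 + t) = r * (r * t - 3) ^ 2 := by linear_combination h
  have h3 : r + 3 + t = (r * t - 3) ^ 2 := mul_left_cancel₀ (by linarith) h2
  have h4 : r + t - 4 ≤ r * t - 3 := by nlinarith
  have h5 : r + t ≤ 7 := by
    by_contra hc
    have h6 : 8 ≤ r + t := by omega
    nlinarith
  have h7 : r ≤ 6 := by omega
  have h8 : t ≤ 3 := by omega
  interval_cases r <;> interval_cases t <;> omega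

/-- **EX.** -/
theorem pf_EX : Pool.Agent.H29.SL.T_EX := by
  intro p q hp hp7 hq hd h
  obtain ⟨r, rfl⟩ : ∃ r, q = r + 1 := ⟨q - 1, by omega⟩
  have e1 : p * (p + 1) = r * (r ^ 2 + 3 * r + 3) := by
    have : p ^ 2 + p + 1 = r * (r ^ 2 + 3 * r + 3) + 1 := by rw [h]; ring
    linarith
  have e2 : (r + 1) ^ 4 + (r + 1) ^ 2 + 1 = (r ^ 2 + 3 * r + 3) * (r ^ 2 + r + 1) := by ring
  rw [e2] at hd
  have hA : p ∣ r ^ 2 + 3 * r + 3 := by
    rcases (hp.dvd_mul).1 hd with h1 | h1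
    · exact h1
    · exfalso
      have h2 : p ∣ r * (r ^ 2 + 3 * r + 3) := ⟨p + 1, e1.symm⟩
      have h3 : p ∣ (r + 2) * (r ^ 2 + r + 1) := Dvd.dvd.mul_left h1 _
      have h4 : (r + 2) * (r ^ 2 + r + 1) = r * (r ^ 2 + 3 * r + 3) + 2 := by ring
      rw [h4] at h3
      have h5 : p ∣ 2 := (Nat.dvd_add_right h2).1 h3
      have := Nat.le_of_dvd (by norm_num) h5
      omega
  obtain ⟨m, hm⟩ := hA
  have e3 : p + 1 = r * m := by
    have : p * (p + 1) = p * (r * m) := by rw [e1, hm]; ring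
    exact Nat.eq_of_mul_eq_mul_left (by omega) this
  have hm1 : 1 ≤ m := by
    rcases Nat.eq_zero_or_pos m with h0 | h0
    · subst h0; simp at e3
    · exact h0
  refine ex_aux (r : ℤ) (m : ℤ) (by omega) (by omega) ?_
  have e4 : (p : ℤ) = r * m - 1 := by
    have : (p : ℤ) + 1 = r * m := by exact_mod_cast e3
    linarith
  have e5 : (r : ℤ) ^ 2 + 3 * r + 3 = p * m := by exact_mod_cast hm
  rw [e5, e4]

end Pool.Agent.H51.SL
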